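import Pool.Agent.Lib.MP_0a76a5_co.Count

-- part Pool.Agent.Lib.MP_0a76a5_co.Join
section

/-!
Two marked columns lie on one cycle of two spare rows a constant fraction of the time.
-/

set_option autoImplicit false
set_option linter.unusedSectionVars false

open Equiv Equiv.Perm Finset Function

namespace Pool.Agent.Lib.MP_0a76a5_co

variable {α : Type*} [Fintype α] [DecidableEq α]

theorem cyc_eq {π : Perm α} {x y : α} (h : π.SameCycle x y) : cyc π x = cyc π y := by
  ext z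
  rw [mem_cyc, mem_cyc]
  exact ⟨fun h' => h.symm.trans h', fun h' => h.trans h'⟩

namespace Ctx

variable (K : Ctx α)

/-- Column of the symbol `L r c` in the row `r'`. -/
noncomputable def gS (q : Cf α) : α := pos (q.1 q.2.2.1) (q.1 K.r K.c)

/-- Column of the symbol `L r c'` in the row `r'`. -/
noncomputable def gZ (q : Cf α) : α := pos (q.1 q.2.2.1) (q.1 K.r q.2.1)

/-- Length of the cycle through `c'`. -/
noncomputable def len (q : Cf α) : ℕ := (cyc (rpi q.1 q.2.2.1 q.2.2.2) q.2.1).card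

/-- Short cycle. -/
noncomputable def A1 (m : ℕ) : Finset (Cf α) :=
  fs fun q => q ∈ K.S2d ∧ K.gS q ∉ K.Y ∧ len q ≤ m

/-- Long cycle. -/
noncomputable def A2 (m : ℕ) : Finset (Cf α) :=
  fs fun q => q ∈ K.S2d ∧ K.gZ q ∉ K.Y ∧ m < len q

/-- A marked column is not usable. -/
noncomputable def A3 : Finset (Cf α) :=
  fs fun q => q ∈ K.S2d ∧ (K.gS q ∈ K.Y ∨ K.gZ q ∈ K.Y)

theorem split_S2d (m : ℕ) : K.S2d.card ≤ (K.A1 m).card + (K.A2 m).card + K.A3.card := by
  apply card_le_three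
  intro q hq
  unfold A1 A2 A3
  simp only [mem_fs]
  by_cases h1 : K.gS q ∈ K.Y
  · exact Or.inr (Or.inr ⟨hq, Or.inl h1⟩)
  · by_cases h2 : K.gZ q ∈ K.Y
    · exact Or.inr (Or.inr ⟨hq, Or.inr h2⟩)
    · by_cases h3 : len q ≤ m
      · exact Or.inl ⟨hq, h1, h3⟩
      · exact Or.inr (Or.inl ⟨hq, h2, by omega⟩)

theorem step_A3 : K.A3.card ≤ K.I.card * (K.Y.card * 2) := by
  have h := card_le_of_rec K.A3 K.I (K.Y ×ˢ (univ : Finset Bool))
    (fun q t => (q.1, q.2.1, pos (tr q.1 t.1) (if t.2 then q.1 K.r K.c else q.1 K.r q.2.1),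
      q.2.2.2)) ?_
  · simpa using h
  rintro ⟨L, c', r', r''⟩ hq
  obtain ⟨hq1, hy⟩ := mem_fs.1 hq
  obtain ⟨hb, -, ht, -⟩ := mem_fs.1 hq1
  have hL : Latin L := hb.1.1
  have hI : (L, c', r'', r'') ∈ K.I :=
    mem_fs.2 ⟨⟨hb.1, hb.2.1, hb.2.2.1, hb.2.2.2.2, hb.2.2.2.2⟩, rfl, ht⟩
  rcases hy with hy | hy
  · refine ⟨_, hI, (K.gS (L, c', r', r''), true), by simp [hy], ?_⟩
    have : pos (tr L (K.gS (L, c', r', r''))) (L K.r K.c) = r' :=
      pos_eq (hL.2 _) (apply_pos (hL.1 r') _)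
    simp [this]
  · refine ⟨_, hI, (K.gZ (L, c', r', r''), false), by simp [hy], ?_⟩
    have : pos (tr L (K.gZ (L, c', r', r''))) (L K.r c') = r' :=
      pos_eq (hL.2 _) (apply_pos (hL.1 r') _)
    simp [this]

theorem Base.join {K : Ctx α} {L M : Arr α} {c' r' r'' g d : α}
    (hb : K.Base (L, c', r', r'')) (hM : Latin M)
    (e : ∀ i k, k ≠ g → k ≠ d → M i k = L i k) (hg : g ∉ K.Y) (hd : d ∉ K.Y) (hg' : g ≠ c')
    (hd' : d ≠ c') :
    K.Base (M, c', r', r'') ∧ (∀ i, M i K.c = L i K.c) ∧ (∀ i, M i c' = L i c') := by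
  have e1 : ∀ i, ∀ k ∈ K.Y, M i k = L i k := fun i k hk =>
    e i k (fun h : k = g => hg (h ▸ hk)) (fun h : k = d => hd (h ▸ hk))
  have e2 : ∀ i, M i c' = L i c' := fun i => e i c' hg'.symm hd'.symm
  refine ⟨⟨hb.1.of_agree hM fun i _ k hk _ => Or.inl (e1 i k hk), ?_, ?_, hb.2.2.2.1,
    hb.2.2.2.2⟩, fun i => e1 i _ K.hc, e2⟩
  · show M K.r K.c ∉ K.Z
    rw [e1 _ _ K.hc]
    exact hb.2.1
  · show M K.r c' ∈ K.Z
    rw [e2]
    exact hb.2.2.1

theorem step_A1 (m : ℕ) : (K.A1 m).card * (Fintype.card α - K.Y.card - m) ≤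
    (K.S1s.card + K.S1d.card + (K.S2s.card + K.S2d.card)) * (m * 2) := by
  have h1 := double_count (K.A1 m)
    (fun q d => d ∉ K.Y ∧ d ∉ cyc (rpi q.1 q.2.2.1 q.2.2.2) q.2.1)
    (fs fun q => K.Base q ∧ q.2.2.1 ≠ q.2.2.2 ∧ (K.Ty1 q ∨ K.Ty2 q))
    (Icc 1 m ×ˢ (univ : Finset Bool))
    (fun q t => (((unjoin q.1 q.2.2.1 q.2.2.2 (K.gS q) t.1 t.2).1, q.2),
      (unjoin q.1 q.2.2.1 q.2.2.2 (K.gS q) t.1 t.2).2))
    (Fintype.card α - K.Y.card - m) ?_ ?_
  · refine le_trans h1 ?_
    have c1 : (Icc 1 m ×ˢ (univ : Finset Bool)).card = m * 2 := by simp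
    rw [c1]
    apply Nat.mul_le_mul_right
    classical
    have := card_le_three (fs fun q => K.Base q ∧ q.2.2.1 ≠ q.2.2.2 ∧ (K.Ty1 q ∨ K.Ty2 q))
      K.S1s K.S1d (K.S2s ∪ K.S2d) ?_
    · exact le_trans this (Nat.add_le_add_left (card_union_le _ _) _)
    intro q hq
    rw [mem_fs] at hq
    obtain ⟨hb, hne, ht⟩ := hq
    unfold S1s S1d S2s S2d
    simp only [mem_union, mem_fs]
    by_cases s : K.Same q
    · rcases ht with ht | ht
      · exact Or.inl ⟨hb, hne, ht, s⟩
      · exact Or.inr (Or.inr (Or.inl ⟨hb, hne, ht, s⟩))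
    · rcases ht with ht | ht
      · exact Or.inr (Or.inl ⟨hb, hne, ht, s⟩)
      · exact Or.inr (Or.inr (Or.inr ⟨hb, hne, ht, s⟩))
  · intro q hq
    obtain ⟨-, -, hl⟩ := mem_fs.1 hq
    have b3 := card_le_three (univ : Finset α)
      (fs fun d => d ∉ K.Y ∧ d ∉ cyc (rpi q.1 q.2.2.1 q.2.2.2) q.2.1)
      K.Y (cyc (rpi q.1 q.2.2.1 q.2.2.2) q.2.1) (by
        intro x _
        simp only [mem_fs]
        tauto)
    rw [card_univ] at b3
    unfold len at hl
    omega
  · rintro ⟨L, c', r', r''⟩ hq d hd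
    obtain ⟨hq1, hy, hl⟩ := mem_fs.1 hq
    obtain ⟨hb, hne, ht, -⟩ := mem_fs.1 hq1
    have hL : Latin L := hb.1.1
    have hne' : r' ≠ r'' := hne
    have h1 : K.r ≠ r' := hb.r_ne_fst
    have h2 : K.r ≠ r'' := hb.r_ne_snd
    have t1 : L r'' K.c = L K.r c' := ht.1
    have t2 : L r'' c' = L K.r K.c := ht.2
    have hl' : (cyc (rpi L r' r'') c').card ≤ m := hl
    have hd1 : d ∉ K.Y := hd.1
    have hd2 : ¬ (rpi L r' r'').SameCycle c' d := fun h => hd.2 (mem_cyc.2 h)
    set g := K.gS (L, c', r', r'') with hg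
    have hgs : L r' g = L K.r K.c := apply_pos (hL.1 r') _
    have hpg : rpi L r' r'' g = c' := rpi_eq hL.1 (t2.trans hgs.symm)
    have hgc : (rpi L r' r'').SameCycle g c' := by
      rw [← hpg]; simpa using SameCycle.refl _ g
    have hgd : ¬ (rpi L r' r'').SameCycle g d := fun h => hd2 (hgc.symm.trans h)
    have hdg : ¬ (rpi L r' r'').SameCycle d g := fun h => hgd h.symm
    have hdc : ¬ (rpi L r' r'').SameCycle d c' := fun h => hd2 h.symm
    have hgc' : g ≠ c' := by
      intro e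
      rw [e] at hgs
      exact hne' (hL.col_inj (hgs.trans t2.symm))
    have hdc' : d ≠ c' := by
      intro e
      rw [e] at hd2
      exact hd2 (SameCycle.refl _ _)
    obtain ⟨L₁, M, hL₁, hM, e1, e2, -, l, l1, l2, bit, e3⟩ := join hL hne' hgd
    have hb₁ : K.Base (L₁, c', r', r'') := by
      rcases hL₁ with h | h
      · rw [h]; exact hb
      · rw [h]; exact hb.flip d
    have f1 : ∀ k, L₁ K.r k = L K.r k := by
      intro k
      rcases hL₁ with h | h
      · rw [h]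
      · rw [h, flipRow_of_ne h1 h2]
    have f2 : ∀ i k, ¬ (rpi L r' r'').SameCycle d k → L₁ i k = L i k := by
      intro i k hk
      rcases hL₁ with h | h
      · rw [h]
      · rw [h, flipRow_of_not_mem hk]
    have f3 : L₁ r' K.c = L K.r c' ∨ L₁ r'' K.c = L K.r c' := by
      rcases hL₁ with h | h
      · rw [h]; exact Or.inr t1
      · by_cases hk : (rpi L r' r'').SameCycle d K.c
        · rw [h, flipRow_of_mem hk, swap_apply_left]; exact Or.inl t1
        · right; rw [h, flipRow_of_not_mem hk]; exact t1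
    obtain ⟨hbM, m1, m2⟩ := hb₁.join hM e2 hy hd1 hgc' hdc'
    have u2 : M r'' c' = M K.r K.c := by rw [m2, m1, f1, f2 _ _ hdc, t2]
    have hgM : K.gS (M, c', r', r'') = g := by
      apply pos_eq (hM.1 r')
      show M r' g = M K.r K.c
      rw [e1, m1, f1, f2 _ _ hdg, hgs]
    refine ⟨(M, c', r', r''), mem_fs.2 ⟨hbM, hne', ?_⟩, (l, bit), ?_, ?_⟩
    · rcases f3 with f3 | f3
      · left
        refine ⟨?_, u2⟩
        show M r' K.c = M K.r c'
        rw [m1, m2, f1, f3]
      · right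
        refine ⟨?_, u2⟩
        show M r'' K.c = M K.r c'
        rw [m1, m2, f1, f3]
    · rw [cyc_eq hgc] at l2
      simp only [mem_product, mem_Icc, mem_univ, and_true]
      omega
    · simp only [hgM, e3]

theorem step_A2 (m : ℕ) : (K.A2 m).card * (m - K.Y.card) ≤
    (K.S1s.card + K.S2s.card) * (Fintype.card α * 2) := by
  have h1 := double_count (K.A2 m)
    (fun q d => d ∈ cyc (rpi q.1 q.2.2.1 q.2.2.2) q.2.1 ∧ d ∉ K.Y ∧ d ≠ q.2.1)
    (fs fun q => K.Base q ∧ q.2.2.1 ≠ q.2.2.2 ∧ K.Same q ∧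
      (K.Ty1 (q.1, q.2.1, q.2.2.2, q.2.2.1) ∨ K.Ty2 q))
    (Icc 1 (Fintype.card α) ×ˢ (univ : Finset Bool))
    (fun q t => (((unjoin q.1 q.2.2.1 q.2.2.2 (K.gZ q) t.1 t.2).1, q.2),
      (unjoin q.1 q.2.2.1 q.2.2.2 (K.gZ q) t.1 t.2).2))
    (m - K.Y.card) ?_ ?_
  · refine le_trans h1 ?_
    have c1 : (Icc 1 (Fintype.card α) ×ˢ (univ : Finset Bool)).card = Fintype.card α * 2 := by
      simp
    rw [c1]
    apply Nat.mul_le_mul_right
    classical
    have := card_le_three (fs fun q => K.Base q ∧ q.2.2.1 ≠ q.2.2.2 ∧ K.Same q ∧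
      (K.Ty1 (q.1, q.2.1, q.2.2.2, q.2.2.1) ∨ K.Ty2 q))
      (K.S1s.image fun q => (q.1, q.2.1, q.2.2.2, q.2.2.1)) K.S2s ∅ ?_
    · have h2 := card_image_le (s := K.S1s)
        (f := fun q : Cf α => ((q.1, q.2.1, q.2.2.2, q.2.2.1) : Cf α))
      rw [card_empty] at this
      omega
    rintro ⟨L, c', r', r''⟩ hq
    rw [mem_fs] at hq
    obtain ⟨hb, hne, s, ht⟩ := hq
    rcases ht with ht | ht
    · left
      refine mem_image.2 ⟨(L, c', r'', r'), mem_fs.2 ⟨⟨hb.1, hb.2.1, hb.2.2.1, hb.2.2.2.2,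
        hb.2.2.2.1⟩, Ne.symm hne, ht, ?_⟩, rfl⟩
      exact sameCycle_rpi_symm.2 s
    · exact Or.inr (Or.inl (mem_fs.2 ⟨hb, hne, ht, s⟩))
  · intro q hq
    obtain ⟨-, -, hl⟩ := mem_fs.1 hq
    have b3 := card_le_three (cyc (rpi q.1 q.2.2.1 q.2.2.2) q.2.1)
      (fs fun d => d ∈ cyc (rpi q.1 q.2.2.1 q.2.2.2) q.2.1 ∧ d ∉ K.Y ∧ d ≠ q.2.1)
      K.Y {q.2.1} (by
        intro x hx
        simp only [mem_fs, mem_singleton]
        tauto)
    rw [card_singleton] at b3
    unfold len at hl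
    omega
  · rintro ⟨L, c', r', r''⟩ hq d hd
    obtain ⟨hq1, hy, -⟩ := mem_fs.1 hq
    obtain ⟨hb, hne, ht, hs⟩ := mem_fs.1 hq1
    have hL : Latin L := hb.1.1
    have hne' : r' ≠ r'' := hne
    have h1 : K.r ≠ r' := hb.r_ne_fst
    have h2 : K.r ≠ r'' := hb.r_ne_snd
    have t1 : L r'' K.c = L K.r c' := ht.1
    have t2 : L r'' c' = L K.r K.c := ht.2
    have hs' : ¬ (rpi L r' r'').SameCycle K.c c' := hs
    have hd0 : (rpi L r' r'').SameCycle c' d := mem_cyc.1 hd.1
    have hd1 : d ∉ K.Y := hd.2.1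
    have hdc' : d ≠ c' := hd.2.2
    set g := K.gZ (L, c', r', r'') with hg
    have hgs : L r' g = L K.r c' := apply_pos (hL.1 r') _
    have hpg : rpi L r' r'' g = K.c := rpi_eq hL.1 (t1.trans hgs.symm)
    have hgc : (rpi L r' r'').SameCycle g K.c := by
      rw [← hpg]; simpa using SameCycle.refl _ g
    have hgd : ¬ (rpi L r' r'').SameCycle g d := fun h =>
      hs' ((hgc.symm.trans h).trans hd0.symm)
    have hdg : ¬ (rpi L r' r'').SameCycle d g := fun h => hgd h.symm
    have hdc : ¬ (rpi L r' r'').SameCycle d K.c := fun h => hgd (hgc.trans h.symm)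
    have hgc' : g ≠ c' := by
      intro e
      rw [e] at hgs
      exact h1 (hL.col_inj hgs.symm)
    obtain ⟨L₁, M, hL₁, hM, e1, e2, e4, l, l1, l2, bit, e3⟩ := join hL hne' hgd
    have hb₁ : K.Base (L₁, c', r', r'') := by
      rcases hL₁ with h | h
      · rw [h]; exact hb
      · rw [h]; exact hb.flip d
    have f1 : ∀ k, L₁ K.r k = L K.r k := by
      intro k
      rcases hL₁ with h | h
      · rw [h]
      · rw [h, flipRow_of_ne h1 h2]
    have f2 : ∀ i k, ¬ (rpi L r' r'').SameCycle d k → L₁ i k = L i k := by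
      intro i k hk
      rcases hL₁ with h | h
      · rw [h]
      · rw [h, flipRow_of_not_mem hk]
    have f3 : L₁ r' c' = L K.r K.c ∨ L₁ r'' c' = L K.r K.c := by
      rcases hL₁ with h | h
      · rw [h]; exact Or.inr t2
      · rw [h, flipRow_of_mem hd0.symm, swap_apply_left]; exact Or.inl t2
    obtain ⟨hbM, m1, m2⟩ := hb₁.join hM e2 hy hd1 hgc' hdc'
    have u2 : M r'' K.c = M K.r c' := by rw [m2, m1, f1, f2 _ _ hdc, t1]
    have hgM : K.gZ (M, c', r', r'') = g := by
      apply pos_eq (hM.1 r')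
      show M r' g = M K.r c'
      rw [e1, m2, f1, f2 _ _ hdg, hgs]
    refine ⟨(M, c', r', r''), mem_fs.2 ⟨hbM, hne', e4 _ _ hgc hd0.symm, ?_⟩, (l, bit), ?_, ?_⟩
    · rcases f3 with f3 | f3
      · left
        refine ⟨u2, ?_⟩
        show M r' c' = M K.r K.c
        rw [m1, m2, f1, f3]
      · right
        refine ⟨u2, ?_⟩
        show M r'' c' = M K.r K.c
        rw [m1, m2, f1, f3]
    · have := card_le_univ (cyc (rpi L r' r'') g)
      simp only [mem_product, mem_Icc, mem_univ, and_true]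
      omega
    · simp only [hgM, e3]

/-- The one step inequality. -/
theorem step_main (k : ℕ) (hk : 1 ≤ k) (hn : 20 * k ≤ Fintype.card α)
    (hn' : Fintype.card α ≤ 40 * k) (hX : K.X.card ≤ k) (hY : K.Y.card ≤ k)
    (hZ : 4 * K.X.card ≤ K.Z.card) :
    K.S.card * K.Z.card ≤ 804 * (K.T.card * Fintype.card α) := by
  have a := K.step_a
  have b := K.step_b
  have c := K.step_c
  have d := K.step_d
  have e := K.step_e
  have f := K.step_f
  have g := K.split_S2d (2 * k)
  have g1 := K.step_A1 (2 * k)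
  have g2 := K.step_A2 (2 * k)
  have g3 := K.step_A3
  set N := K.T.card * Fintype.card α with hN
  set n := Fintype.card α
  set x := K.X.card
  set y := K.Y.card
  set z := K.Z.card
  set B := K.S2d.card
  set A1 := (K.A1 (2 * k)).card
  set A2 := (K.A2 (2 * k)).card
  set A3 := K.A3.card
  set i := K.I.card
  have i1 : 17 * A1 ≤ 8 * (N + B) := by
    have h1 : A1 * (17 * k) ≤ A1 * (n - y - 2 * k) := Nat.mul_le_mul_left _ (by omega)
    have h2 : (K.S1s.card + K.S1d.card + (K.S2s.card + B)) * (2 * k * 2) ≤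
        (2 * (N + B)) * (2 * k * 2) := Nat.mul_le_mul_right _ (by omega)
    have h3 : k * (17 * A1) ≤ k * (8 * (N + B)) := by nlinarith
    exact Nat.le_of_mul_le_mul_left h3 (by omega)
  have i2 : A2 ≤ 160 * N := by
    have h1 : A2 * k ≤ A2 * (2 * k - y) := Nat.mul_le_mul_left _ (by omega)
    have h2 : (K.S1s.card + K.S2s.card) * (n * 2) ≤ (2 * N) * (40 * k * 2) :=
      Nat.mul_le_mul (by omega) (by omega)
    have h3 : k * A2 ≤ k * (160 * N) := by nlinarith
    exact Nat.le_of_mul_le_mul_left h3 (by omega)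
  have i3 : 9 * A3 ≤ N + B := by
    have h1 : i * (18 * k) ≤ i * (n - x - 1) := Nat.mul_le_mul_left _ (by omega)
    have h2 : i * (y * 2) ≤ i * (k * 2) := Nat.mul_le_mul_left _ (by omega)
    nlinarith
  have i4 : B ≤ 400 * N := by omega
  have i5 : K.S.card * z ≤ K.S.card * (2 * (z - 2 * x)) := Nat.mul_le_mul_left _ (by omega)
  have i6 : K.S.card * (2 * (z - 2 * x)) = 2 * (K.S.card * (z - 2 * x)) := by ring
  omega

end Ctx

end Pool.Agent.Lib.MP_0a76a5_co
end

-- part Pool.Agent.Lib.MP_0a76a5_co.Box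
section

/-!
The probability that a fixed box is empty, and the union bound.
-/

set_option autoImplicit false
set_option linter.unusedSectionVars false

open Equiv Equiv.Perm Finset Function

namespace Pool.Agent.Lib.MP_0a76a5_co

variable {α : Type*} [Fintype α] [DecidableEq α]

/-- Latin squares with no symbol of `Z` in the cells of `D`. -/
noncomputable def Om (D : Finset (α × α)) (Z : Finset α) : Finset (Arr α) :=
  fs fun L => Latin L ∧ ∀ p ∈ D, L p.1 p.2 ∉ Z

/-- All Latin squares. -/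
noncomputable def LS (α : Type*) [Fintype α] [DecidableEq α] : Finset (Arr α) :=
  fs fun L => Latin L

theorem om_iter (X Y Z : Finset α) (k : ℕ) (hk : 1 ≤ k) (hn : 20 * k ≤ Fintype.card α)
    (hn' : Fintype.card α ≤ 40 * k) (hX : X.card ≤ k) (hY : Y.card ≤ k)
    (hZ : 4 * X.card ≤ Z.card) (D : Finset (α × α)) (hD : ∀ p ∈ D, p.1 ∈ X ∧ p.2 ∈ Y) :
    ((Om D Z).card : ℝ) * (1 + (Z.card : ℝ) / (804 * Fintype.card α)) ^ D.card ≤
      (LS α).card := by
  induction D using Finset.induction_on with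
  | empty =>
    have : Om (∅ : Finset (α × α)) Z = LS α := by
      ext L
      simp [Om, LS, mem_fs]
    simp [this]
  | insert p D hp ih =>
    obtain ⟨r, c⟩ := p
    have hD' : ∀ p ∈ D, p.1 ∈ X ∧ p.2 ∈ Y := fun p h => hD p (mem_insert_of_mem h)
    have hrc := hD (r, c) (mem_insert_self _ _)
    let K : Ctx α := ⟨X, Y, Z, D, r, c, hD', hrc.1, hrc.2, hp⟩
    have main := K.step_main k hk hn hn' hX hY hZ
    have e1 : Om (insert (r, c) D) Z = K.S := by
      ext L
      unfold Om Ctx.S Ctx.Ok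
      simp only [mem_fs, mem_insert, forall_eq_or_imp]
      tauto
    have e2 : K.S.card + K.T.card ≤ (Om D Z).card := by
      classical
      rw [← card_union_of_disjoint]
      · apply card_le_card
        intro L hL
        unfold Om
        unfold Ctx.S Ctx.T Ctx.Ok at hL
        simp only [mem_union, mem_fs] at hL ⊢
        tauto
      · rw [disjoint_left]
        intro L h1 h2
        unfold Ctx.S at h1
        unfold Ctx.T at h2
        rw [mem_fs] at h1 h2
        exact h1.2 h2.2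
    have hnpos : (0 : ℝ) < Fintype.card α := by
      have : 0 < Fintype.card α := by omega
      exact_mod_cast this
    have main' : (K.S.card : ℝ) * Z.card ≤ 804 * (K.T.card * Fintype.card α) := by
      exact_mod_cast main
    have e2' : (K.S.card : ℝ) + K.T.card ≤ (Om D Z).card := by exact_mod_cast e2
    have e3 : (K.S.card : ℝ) * (1 + (Z.card : ℝ) / (804 * Fintype.card α)) ≤
        (Om D Z).card := by
      have : (K.S.card : ℝ) * ((Z.card : ℝ) / (804 * Fintype.card α)) ≤ K.T.card := by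
        rw [← mul_div_assoc, div_le_iff₀ (by positivity)]
        linarith
      linarith
    rw [e1, card_insert_of_notMem hp, pow_succ', ← mul_assoc]
    refine le_trans ?_ (ih hD')
    apply mul_le_mul_of_nonneg_right e3
    positivity

theorem pow_bound (n x y z : ℕ) (hn : 1 ≤ n) (hz : z ≤ n) (hv : 16 * 804 * n ^ 2 ≤ x * y * z) :
    (16 : ℝ) ^ n ≤ (1 + (z : ℝ) / (804 * n)) ^ (x * y) := by
  set t : ℝ := (z : ℝ) / (804 * n) with ht
  have hnpos : (0 : ℝ) < n := by exact_mod_cast hn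
  have ht0 : 0 ≤ t := by positivity
  have ht1 : t ≤ 1 := by
    rw [ht, div_le_one (by positivity)]
    have : (z : ℝ) ≤ n := by exact_mod_cast hz
    linarith
  set M := x * y / n with hM
  have h1 : M * n ≤ x * y := Nat.div_mul_le_self _ _
  have h2 : x * y < (M + 1) * n := by
    have := Nat.lt_div_mul_add (a := x * y) (b := n) (by omega)
    rw [← hM] at this
    nlinarith
  have h3 : (16 : ℝ) ≤ (M + 1) * t := by
    have a1 : ((x * y : ℕ) : ℝ) ≤ (M + 1) * n := by exact_mod_cast h2.le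
    have a2 : (16 * 804 * n ^ 2 : ℝ) ≤ (x * y : ℕ) * z := by exact_mod_cast hv
    have a3 : (0 : ℝ) ≤ z := by positivity
    rw [ht, ← mul_div_assoc, le_div_iff₀ (by positivity)]
    have a4 : (16 * 804 * n : ℝ) * n ≤ ((M + 1) * z) * n := by nlinarith
    have := le_of_mul_le_mul_right a4 hnpos
    linarith
  have h4 : (16 : ℝ) ≤ (1 + t) ^ M := by
    have := one_add_mul_le_pow (a := t) (by linarith) M
    linarith
  calc (16 : ℝ) ^ n ≤ ((1 + t) ^ M) ^ n := pow_le_pow_left₀ (by norm_num) h4 n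
    _ = (1 + t) ^ (M * n) := by rw [pow_mul]
    _ ≤ (1 + t) ^ (x * y) := pow_le_pow_right₀ (by linarith) h1

/-- Boxes to which the switching bound applies. -/
def Nice (k : ℕ) (X Y Z : Finset α) : Prop :=
  X.card ≤ k ∧ Y.card ≤ k ∧ 4 * X.card ≤ Z.card ∧
    16 * 804 * Fintype.card α ^ 2 ≤ X.card * Y.card * Z.card

theorem om_bound (X Y Z : Finset α) (k : ℕ) (hk : 1 ≤ k) (hn : 20 * k ≤ Fintype.card α)
    (hn' : Fintype.card α ≤ 40 * k) (h : Nice k X Y Z) :
    ((Om (X ×ˢ Y) Z).card : ℝ) * 16 ^ Fintype.card α ≤ (LS α).card := by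
  have h1 := om_iter X Y Z k hk hn hn' h.1 h.2.1 h.2.2.1 (X ×ˢ Y)
    (fun p hp => mem_product.1 hp)
  have h2 := pow_bound (Fintype.card α) X.card Y.card Z.card (by omega) (card_le_univ Z) h.2.2.2
  rw [card_product] at h1
  exact le_trans (mul_le_mul_of_nonneg_left h2 (by positivity)) h1

/-- Squares with an empty nice box. -/
noncomputable def Bad0 (α : Type*) [Fintype α] [DecidableEq α] (k : ℕ) : Finset (Arr α) :=
  fs fun L => ∃ X Y Z : Finset α, Nice k X Y Z ∧ L ∈ Om (X ×ˢ Y) Z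

theorem bad0_bound (k : ℕ) (hk : 1 ≤ k) (hn : 20 * k ≤ Fintype.card α)
    (hn' : Fintype.card α ≤ 40 * k) :
    ((Bad0 α k).card : ℝ) * 2 ^ Fintype.card α ≤ (LS α).card := by
  classical
  set P : Finset (Finset α × Finset α × Finset α) := fs fun b => Nice k b.1 b.2.1 b.2.2 with hP
  have h1 : Bad0 α k ⊆ P.biUnion fun b => Om (b.1 ×ˢ b.2.1) b.2.2 := by
    intro L hL
    obtain ⟨X, Y, Z, h, hL'⟩ := mem_fs.1 hL
    exact mem_biUnion.2 ⟨(X, Y, Z), mem_fs.2 h, hL'⟩
  have h2 : (Bad0 α k).card ≤ ∑ b ∈ P, (Om (b.1 ×ˢ b.2.1) b.2.2).card :=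
    le_trans (card_le_card h1) card_biUnion_le
  have h3 : ((Bad0 α k).card : ℝ) ≤ ∑ b ∈ P, ((Om (b.1 ×ˢ b.2.1) b.2.2).card : ℝ) := by
    exact_mod_cast h2
  have h4 : ∑ b ∈ P, ((Om (b.1 ×ˢ b.2.1) b.2.2).card : ℝ) * 16 ^ Fintype.card α ≤
      ∑ _b ∈ P, ((LS α).card : ℝ) := by
    apply sum_le_sum
    intro b hb
    exact om_bound _ _ _ k hk hn hn'
      ((mem_fs (p := fun b : Finset α × Finset α × Finset α => Nice k b.1 b.2.1 b.2.2)).1 hb)
  rw [← sum_mul, sum_const, nsmul_eq_mul] at h4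
  have h5 : (P.card : ℝ) ≤ 8 ^ Fintype.card α := by
    have := card_le_univ P
    rw [Fintype.card_prod, Fintype.card_prod, Fintype.card_finset, ← mul_pow, ← mul_pow] at this
    exact_mod_cast this
  have h6 : ((Bad0 α k).card : ℝ) * 16 ^ Fintype.card α ≤ 8 ^ Fintype.card α * (LS α).card := by
    calc ((Bad0 α k).card : ℝ) * 16 ^ Fintype.card α
        ≤ (∑ b ∈ P, ((Om (b.1 ×ˢ b.2.1) b.2.2).card : ℝ)) * 16 ^ Fintype.card α :=
          mul_le_mul_of_nonneg_right h3 (by positivity)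
      _ ≤ P.card * (LS α).card := h4
      _ ≤ 8 ^ Fintype.card α * (LS α).card := mul_le_mul_of_nonneg_right h5 (by positivity)
  have h7 : (16 : ℝ) ^ Fintype.card α = 8 ^ Fintype.card α * 2 ^ Fintype.card α := by
    rw [← mul_pow]; norm_num
  rw [h7] at h6
  have h8 : (0 : ℝ) < 8 ^ Fintype.card α := by positivity
  apply le_of_mul_le_mul_left _ h8
  linarith

/-- Exchange of rows and symbols. -/
noncomputable def conj (L : Arr α) : Arr α := fun s j => pos (tr L j) s

theorem conj_spec {L : Arr α} (h : Latin L) (s j : α) : L (conj L s j) j = s :=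
  apply_pos (h.2 j) s

theorem conj_latin {L : Arr α} (h : Latin L) : Latin (conj L) := by
  constructor
  · intro s
    rw [← Finite.injective_iff_bijective]
    intro j j' e
    have e1 := conj_spec h s j
    have e2 := conj_spec h s j'
    rw [← e] at e2
    exact h.row_inj (e1.trans e2.symm)
  · intro j
    rw [← Finite.injective_iff_bijective]
    exact pos_injective (tr L j)

theorem conj_conj {L : Arr α} (h : Latin L) : conj (conj L) = L := by
  funext i j
  apply pos_eq ((conj_latin h).2 j)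
  exact pos_eq (h.2 j) rfl

theorem shrink {L : Arr α} (h : Latin L) (X Y Z : Finset α)
    (he : ∀ i ∈ X, ∀ j ∈ Y, L i j ∉ Z) (hXZ : X.card ≤ Z.card)
    (hv : 20582400 * Fintype.card α ^ 2 < X.card * Y.card * Z.card) :
    L ∈ Bad0 α (Fintype.card α / 20) := by
  have hx := card_le_univ X
  have hy := card_le_univ Y
  have hz := card_le_univ Z
  set n := Fintype.card α
  have hx20 : 20 ≤ X.card := by
    by_contra hlt
    have : X.card * Y.card * Z.card ≤ 20 * n * n :=
      Nat.mul_le_mul (Nat.mul_le_mul (by omega) hy) hz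
    nlinarith
  have hy20 : 20 ≤ Y.card := by
    by_contra hlt
    have : X.card * Y.card * Z.card ≤ n * 20 * n :=
      Nat.mul_le_mul (Nat.mul_le_mul hx (by omega)) hz
    nlinarith
  obtain ⟨X', hX', cX⟩ := exists_subset_card_eq (s := X) (n := X.card / 20) (by omega)
  obtain ⟨Y', hY', cY⟩ := exists_subset_card_eq (s := Y) (n := Y.card / 20) (by omega)
  refine mem_fs.2 ⟨X', Y', Z, ⟨by omega, by omega, by omega, ?_⟩, mem_fs.2 ⟨h, ?_⟩⟩
  · have : X.card * Y.card * Z.card ≤ (40 * X'.card) * (40 * Y'.card) * Z.card :=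
      Nat.mul_le_mul_right _ (Nat.mul_le_mul (by omega) (by omega))
    nlinarith
  · intro p hp
    rw [mem_product] at hp
    exact he _ (hX' hp.1) _ (hY' hp.2)

/-- Squares with a large empty box. -/
noncomputable def Bad (α : Type*) [Fintype α] [DecidableEq α] : Finset (Arr α) :=
  fs fun L => Latin L ∧ ∃ X Y Z : Finset α, (∀ i ∈ X, ∀ j ∈ Y, L i j ∉ Z) ∧
    20582400 * Fintype.card α ^ 2 < X.card * Y.card * Z.card

theorem bad_le : (Bad α).card ≤ 2 * (Bad0 α (Fintype.card α / 20)).card := by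
  classical
  have := card_le_three (Bad α) (Bad0 α (Fintype.card α / 20))
    ((Bad0 α (Fintype.card α / 20)).image conj) ∅ ?_
  · have h2 := card_image_le (s := Bad0 α (Fintype.card α / 20)) (f := conj)
    rw [card_empty] at this
    omega
  intro L hL
  obtain ⟨h, X, Y, Z, he, hv⟩ := mem_fs.1 hL
  by_cases hXZ : X.card ≤ Z.card
  · exact Or.inl (shrink h X Y Z he hXZ hv)
  · right; left
    refine mem_image.2 ⟨conj L, shrink (conj_latin h) Z Y X ?_ (by omega) ?_, conj_conj h⟩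
    · intro s hs j hj hm
      have := he _ hm j hj
      rw [conj_spec h] at this
      exact this hs
    · calc _ < X.card * Y.card * Z.card := hv
        _ = Z.card * Y.card * X.card := by ring

theorem bad_bound (hn : 20 ≤ Fintype.card α) :
    ((Bad α).card : ℝ) * 2 ^ Fintype.card α ≤ 2 * (LS α).card := by
  have h1 := bad0_bound (α := α) (Fintype.card α / 20) (by omega) (by omega) (by omega)
  have h2 : ((Bad α).card : ℝ) ≤ 2 * (Bad0 α (Fintype.card α / 20)).card := by
    exact_mod_cast bad_le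
  have h3 : (0 : ℝ) < 2 ^ Fintype.card α := by positivity
  nlinarith

end Pool.Agent.Lib.MP_0a76a5_co
end
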