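import Mathlib

-- part Pool.Agent.Lib.MP_0a76a5_co.Perm
section

/-!
Elementary facts on cycles of a permutation multiplied by a transposition.
-/

set_option autoImplicit false
set_option linter.unusedSectionVars false

open Equiv Equiv.Perm Finset

namespace Pool.Agent.Lib.MP_0a76a5_co

variable {α : Type*} [Fintype α] [DecidableEq α]

/-- If every step of `ρ` stays in the `π`-cycle, then `ρ`-cycles are inside `π`-cycles. -/
theorem sameCycle_of_step {π ρ : Perm α} (h : ∀ k, π.SameCycle k (ρ k)) {x y : α}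
    (hxy : ρ.SameCycle x y) : π.SameCycle x y := by
  obtain ⟨i, hi⟩ := hxy.exists_nat_pow_eq
  subst hi
  clear hxy
  induction i with
  | zero => simpa using SameCycle.refl π x
  | succ i ih =>
    rw [pow_succ', Perm.mul_apply]
    exact ih.trans (h _)

/-- Splitting a cycle by a transposition. -/
theorem not_sameCycle_swap_mul {π : Perm α} {x y : α} (h : π.SameCycle x y) (hne : x ≠ y) :
    ¬ (swap x y * π).SameCycle x y := by
  have hex : ∃ t : ℕ, (π ^ t) x = y := h.exists_nat_pow_eq
  classical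
  set t := Nat.find hex with ht
  have hty : (π ^ t) x = y := Nat.find_spec hex
  have hmin : ∀ j < t, (π ^ j) x ≠ y := fun j hj => Nat.find_min hex hj
  have ht0 : 0 < t := by
    rcases Nat.eq_zero_or_pos t with h0 | h0
    · rw [h0] at hty
      exact absurd (by simpa using hty) hne
    · exact h0
  have hnx : ∀ j, 0 < j → j < t → (π ^ j) x ≠ x := by
    intro j hj hjt hx
    apply hmin (t - j) (by omega)
    have : (π ^ t) x = (π ^ (t - j)) ((π ^ j) x) := by
      rw [← Perm.mul_apply, ← pow_add]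
      congr 2
      omega
    rw [hx] at this
    rw [← this, hty]
  intro hs
  obtain ⟨i, hi⟩ := hs.exists_nat_pow_eq
  have key : ∀ i : ℕ, ∃ j < t, ((swap x y * π) ^ i) x = (π ^ j) x := by
    intro i
    induction i with
    | zero => exact ⟨0, ht0, by simp⟩
    | succ i ih =>
      obtain ⟨j, hj, hji⟩ := ih
      rw [pow_succ', Perm.mul_apply, hji, Perm.mul_apply, ← Perm.mul_apply π, ← pow_succ']
      by_cases hjt : j + 1 = t
      · refine ⟨0, ht0, ?_⟩
        rw [hjt, hty]
        simp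
      · refine ⟨j + 1, by omega, ?_⟩
        exact swap_apply_of_ne_of_ne (hnx _ (by omega) (by omega)) (hmin _ (by omega))
  obtain ⟨j, hj, hji⟩ := key i
  exact hmin j hj (hji ▸ hi)

/-- The cycle of `g` as a finite set. -/
noncomputable def cyc (π : Perm α) (g : α) : Finset α := by
  classical exact univ.filter (fun x => π.SameCycle g x)

theorem mem_cyc {π : Perm α} {g x : α} : x ∈ cyc π g ↔ π.SameCycle g x := by
  unfold cyc
  simp

/-- After joining the cycles of `g` and `d`, the point `d` is reached from `g` after a number of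
steps which is at most the old cycle length of `g`. -/
theorem exists_pow_swap_mul {π : Perm α} {g d : α} (h : ¬ π.SameCycle g d) :
    ∃ l : ℕ, 1 ≤ l ∧ l ≤ (cyc π g).card ∧ ((swap g d * π) ^ l) g = d := by
  have hex : ∃ t : ℕ, 0 < t ∧ (π ^ t) g = g :=
    ⟨orderOf π, orderOf_pos π, by simp⟩
  classical
  set t := Nat.find hex with ht
  have hty : 0 < t ∧ (π ^ t) g = g := Nat.find_spec hex
  have hmin : ∀ j, 0 < j → j < t → (π ^ j) g ≠ g := fun j hj0 hj hg =>
    Nat.find_min hex hj ⟨hj0, hg⟩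
  have hnd : ∀ j : ℕ, (π ^ j) g ≠ d := by
    intro j hj
    exact h ⟨(j : ℤ), by simpa using hj⟩
  have key : ∀ j < t, ((swap g d * π) ^ j) g = (π ^ j) g := by
    intro j
    induction j with
    | zero => intro _; simp
    | succ j ih =>
      intro hj
      rw [pow_succ', Perm.mul_apply, ih (by omega), Perm.mul_apply, ← Perm.mul_apply π,
        ← pow_succ']
      exact swap_apply_of_ne_of_ne (hmin _ (by omega) hj) (hnd _)
  refine ⟨t, hty.1, ?_, ?_⟩
  · have : (range t).card ≤ (cyc π g).card := by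
      apply card_le_card_of_injOn (fun j => (π ^ j) g)
      · intro j _
        simp only [mem_coe, mem_cyc]
        exact ⟨(j : ℤ), by simp⟩
      · have aux : ∀ i j, i < j → j < t → (π ^ i) g ≠ (π ^ j) g := by
          intro i j hij hj he
          apply hmin (j - i) (by omega) (by omega)
          apply (π ^ i).injective
          rw [← Perm.mul_apply, ← pow_add, he]
          congr 2
          omega
        intro i hi j hj he
        simp only [coe_range, Set.mem_Iio] at hi hj
        rcases lt_trichotomy i j with h1 | h1 | h1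
        · exact absurd he (aux i j h1 hj)
        · exact h1
        · exact absurd he.symm (aux j i h1 hi)
    simpa using this
  · obtain ⟨u, hu⟩ : ∃ u, t = u + 1 := ⟨t - 1, by omega⟩
    have h1 := key u (by omega)
    have h2 := hty.2
    rw [hu] at h2 ⊢
    rw [pow_succ', Perm.mul_apply, h1, Perm.mul_apply, ← Perm.mul_apply π, ← pow_succ', h2]
    simp

/-- Joining two cycles by a transposition. -/
theorem sameCycle_swap_mul {π : Perm α} {g d x y : α} (h : ¬ π.SameCycle g d)
    (hx : π.SameCycle g x) (hy : π.SameCycle d y) : (swap g d * π).SameCycle x y := by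
  obtain ⟨l, -, -, hl⟩ := exists_pow_swap_mul h
  set ρ := swap g d * π with hρ
  have hgd : ρ.SameCycle g d := ⟨(l : ℤ), by simpa using hl⟩
  have hstep : ∀ k, ρ.SameCycle g k → ρ.SameCycle g (π k) := by
    intro k hk
    have h1 : ρ.SameCycle g (ρ k) := by simpa using hk
    have h2 : π k = swap g d (ρ k) := by simp [hρ]
    rw [h2]
    by_cases h3 : ρ k = g
    · rw [h3]; simpa using hgd
    · by_cases h4 : ρ k = d
      · rw [h4]; simpa using SameCycle.refl ρ g
      · rw [swap_apply_of_ne_of_ne h3 h4]; exact h1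
  have hall : ∀ k, ρ.SameCycle g k → ∀ i : ℕ, ρ.SameCycle g ((π ^ i) k) := by
    intro k hk i
    induction i with
    | zero => simpa using hk
    | succ i ih =>
      rw [pow_succ', Perm.mul_apply]
      exact hstep _ ih
  obtain ⟨i, hi⟩ := hx.exists_nat_pow_eq
  obtain ⟨j, hj⟩ := hy.exists_nat_pow_eq
  have h1 := hall g (SameCycle.refl ρ g) i
  have h2 := hall d hgd j
  rw [hi] at h1
  rw [hj] at h2
  exact h1.symm.trans h2

/-- Splitting a cycle by a transposition on the right. -/
theorem not_sameCycle_mul_swap {π : Perm α} {x y : α} (h : π.SameCycle x y) (hne : x ≠ y) :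
    ¬ (π * swap x y).SameCycle x y := by
  intro hs
  have h1 : (π * swap x y)⁻¹.SameCycle x y := sameCycle_inv.2 hs
  rw [mul_inv_rev, swap_inv] at h1
  exact not_sameCycle_swap_mul (π := π⁻¹) (by simpa using h) hne h1

end Pool.Agent.Lib.MP_0a76a5_co
end

-- part Pool.Agent.Lib.MP_0a76a5_co.Flip
section

/-!
Arrays, Latin squares and cycle switches.
-/

set_option autoImplicit false
set_option linter.unusedSectionVars false

open Equiv Equiv.Perm Finset Function

namespace Pool.Agent.Lib.MP_0a76a5_co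

variable {α : Type*} [Fintype α] [DecidableEq α]

/-- Square arrays. -/
abbrev Arr (α : Type*) := α → α → α

/-- Transpose. -/
def tr (L : Arr α) : Arr α := fun j i => L i j

/-- Every row is a bijection. -/
def RowB (L : Arr α) : Prop := ∀ i, Bijective (L i)

/-- Latin squares. -/
def Latin (L : Arr α) : Prop := RowB L ∧ RowB (tr L)

@[simp] theorem tr_tr (L : Arr α) : tr (tr L) = L := rfl

@[simp] theorem tr_apply (L : Arr α) (i j : α) : tr L j i = L i j := rfl

theorem Latin.tr {L : Arr α} (h : Latin L) : Latin (tr L) := ⟨h.2, h.1⟩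

theorem Latin.row_inj {L : Arr α} (h : Latin L) {i j k : α} (e : L i j = L i k) : j = k :=
  (h.1 i).1 e

theorem Latin.col_inj {L : Arr α} (h : Latin L) {i j k : α} (e : L i k = L j k) : i = j :=
  (h.2 k).1 e

/-- A function as a permutation (junk if it is not bijective). -/
noncomputable def toPerm (f : α → α) : Perm α := by
  classical exact if h : Bijective f then Equiv.ofBijective f h else 1

theorem toPerm_apply {f : α → α} (h : Bijective f) (x : α) : toPerm f x = f x := by
  unfold toPerm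
  rw [dif_pos h]
  rfl

/-- Position of the value `y` of `f`. -/
noncomputable def pos (f : α → α) (y : α) : α := (toPerm f)⁻¹ y

theorem apply_pos {f : α → α} (h : Bijective f) (y : α) : f (pos f y) = y := by
  rw [← toPerm_apply h]
  simp [pos]

theorem pos_eq {f : α → α} (h : Bijective f) {x y : α} (e : f x = y) : pos f y = x := by
  apply h.1
  rw [apply_pos h, e]

theorem pos_injective (f : α → α) : Injective (pos f) := (toPerm f)⁻¹.injective

/-- The permutation of columns defined by two rows. -/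
noncomputable def rpi (L : Arr α) (a b : α) : Perm α := (toPerm (L b))⁻¹ * toPerm (L a)

theorem rpi_spec {L : Arr α} (h : RowB L) (a b k : α) : L b (rpi L a b k) = L a k := by
  rw [← toPerm_apply (h b), ← toPerm_apply (h a)]
  simp [rpi]

theorem rpi_spec_inv {L : Arr α} (h : RowB L) (a b k : α) : L a ((rpi L a b)⁻¹ k) = L b k := by
  rw [← rpi_spec h a b]
  simp

theorem rpi_eq {L : Arr α} (h : RowB L) {a b k k' : α} (e : L b k' = L a k) :
    rpi L a b k = k' := by
  apply (h b).1
  rw [rpi_spec h, e]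

theorem rpi_symm (L : Arr α) (a b : α) : rpi L b a = (rpi L a b)⁻¹ := by
  simp [rpi]

theorem sameCycle_rpi_symm {L : Arr α} {a b x y : α} :
    (rpi L b a).SameCycle x y ↔ (rpi L a b).SameCycle x y := by
  rw [rpi_symm, sameCycle_inv]

theorem rpi_swap_right {L L' : Arr α} (h : RowB L) (h' : RowB L') {a b d d' : α}
    (ha : ∀ k, L' a k = L a k) (hb : ∀ k, L' b k = L b (swap d d' k)) :
    rpi L' a b = swap d d' * rpi L a b := by
  ext k
  apply rpi_eq h'
  rw [hb, ha, Perm.mul_apply, swap_apply_self, rpi_spec h]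

theorem rpi_swap_left {L L' : Arr α} (h : RowB L) (h' : RowB L') {a b d d' : α}
    (ha : ∀ k, L' a k = L a (swap d d' k)) (hb : ∀ k, L' b k = L b k) :
    rpi L' a b = rpi L a b * swap d d' := by
  ext k
  apply rpi_eq h'
  rw [hb, ha, Perm.mul_apply, rpi_spec h]

theorem rpi_congr {L L' : Arr α} {a b : α}
    (ha : ∀ k, L' a k = L a k) (hb : ∀ k, L' b k = L b k) :
    rpi L' a b = rpi L a b := by
  have h1 : L' a = L a := funext ha
  have h2 : L' b = L b := funext hb
  simp [rpi, h1, h2]

/-- Switch the cycle of rows `a`, `b` through column `j`. -/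
noncomputable def flipRow (L : Arr α) (a b j : α) : Arr α := by
  classical exact fun i k => if (rpi L a b).SameCycle j k then L (swap a b i) k else L i k

theorem flipRow_of_mem {L : Arr α} {a b j k : α} (h : (rpi L a b).SameCycle j k) (i : α) :
    flipRow L a b j i k = L (swap a b i) k := by
  unfold flipRow
  simp [h]

theorem flipRow_of_not_mem {L : Arr α} {a b j k : α} (h : ¬ (rpi L a b).SameCycle j k) (i : α) :
    flipRow L a b j i k = L i k := by
  unfold flipRow
  simp [h]

theorem flipRow_of_ne {L : Arr α} {a b j i : α} (ha : i ≠ a) (hb : i ≠ b) (k : α) :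
    flipRow L a b j i k = L i k := by
  by_cases h : (rpi L a b).SameCycle j k
  · rw [flipRow_of_mem h, swap_apply_of_ne_of_ne ha hb]
  · rw [flipRow_of_not_mem h]

theorem flipRow_rowB {L : Arr α} (h : RowB L) (a b j : α) : RowB (flipRow L a b j) := by
  intro i
  rw [← Finite.injective_iff_bijective]
  intro k k' e
  by_cases hia : i = a
  · subst hia
    by_cases h1 : (rpi L i b).SameCycle j k <;> by_cases h2 : (rpi L i b).SameCycle j k'
    · rw [flipRow_of_mem h1, flipRow_of_mem h2] at e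
      exact (h _).1 e
    · rw [flipRow_of_mem h1, flipRow_of_not_mem h2, swap_apply_left] at e
      have := rpi_eq h e
      exact absurd (by rw [← this] at h1; simpa using h1) h2
    · rw [flipRow_of_not_mem h1, flipRow_of_mem h2, swap_apply_left] at e
      have := rpi_eq h e.symm
      exact absurd (by rw [← this] at h2; simpa using h2) h1
    · rw [flipRow_of_not_mem h1, flipRow_of_not_mem h2] at e
      exact (h _).1 e
  · by_cases hib : i = b
    · subst hib
      by_cases h1 : (rpi L a i).SameCycle j k <;> by_cases h2 : (rpi L a i).SameCycle j k'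
      · rw [flipRow_of_mem h1, flipRow_of_mem h2] at e
        exact (h _).1 e
      · rw [flipRow_of_mem h1, flipRow_of_not_mem h2, swap_apply_right] at e
        have := rpi_eq h e.symm
        exact absurd (by rw [← this]; simpa using h1) h2
      · rw [flipRow_of_not_mem h1, flipRow_of_mem h2, swap_apply_right] at e
        have := rpi_eq h e
        exact absurd (by rw [← this]; simpa using h2) h1
      · rw [flipRow_of_not_mem h1, flipRow_of_not_mem h2] at e
        exact (h _).1 e
    · rw [flipRow_of_ne hia hib, flipRow_of_ne hia hib] at e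
      exact (h _).1 e

theorem flipRow_colB {L : Arr α} (h : RowB (tr L)) (a b j : α) :
    RowB (tr (flipRow L a b j)) := by
  intro k
  rw [← Finite.injective_iff_bijective]
  intro i i' e
  simp only [tr_apply] at e
  by_cases h1 : (rpi L a b).SameCycle j k
  · rw [flipRow_of_mem h1, flipRow_of_mem h1] at e
    exact (swap a b).injective ((h k).1 e)
  · rw [flipRow_of_not_mem h1, flipRow_of_not_mem h1] at e
    exact (h k).1 e

theorem flipRow_latin {L : Arr α} (h : Latin L) (a b j : α) : Latin (flipRow L a b j) :=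
  ⟨flipRow_rowB h.1 a b j, flipRow_colB h.2 a b j⟩

theorem rpi_flipRow_of_mem {L : Arr α} (h : RowB L) {a b j k : α}
    (hk : (rpi L a b).SameCycle j k) : rpi (flipRow L a b j) a b k = (rpi L a b)⁻¹ k := by
  apply rpi_eq (flipRow_rowB h a b j)
  have h2 : (rpi L a b).SameCycle j ((rpi L a b)⁻¹ k) := by
    have : (rpi L a b)⁻¹ k = (rpi L a b).symm k := rfl
    rw [this]
    simpa using hk
  rw [flipRow_of_mem hk, flipRow_of_mem h2, swap_apply_left, swap_apply_right, rpi_spec_inv h]

theorem rpi_flipRow_of_not_mem {L : Arr α} (h : RowB L) {a b j k : α}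
    (hk : ¬ (rpi L a b).SameCycle j k) : rpi (flipRow L a b j) a b k = rpi L a b k := by
  apply rpi_eq (flipRow_rowB h a b j)
  have h2 : ¬ (rpi L a b).SameCycle j (rpi L a b k) := by simpa using hk
  rw [flipRow_of_not_mem hk, flipRow_of_not_mem h2, rpi_spec h]

theorem sameCycle_flipRow {L : Arr α} (h : RowB L) {a b j x y : α} :
    (rpi (flipRow L a b j) a b).SameCycle x y ↔ (rpi L a b).SameCycle x y := by
  constructor
  · apply sameCycle_of_step
    intro k
    by_cases hk : (rpi L a b).SameCycle j k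
    · rw [rpi_flipRow_of_mem h hk]
      have : (rpi L a b)⁻¹ k = (rpi L a b).symm k := rfl
      rw [this]
      simpa using SameCycle.refl _ k
    · rw [rpi_flipRow_of_not_mem h hk]
      simpa using SameCycle.refl _ k
  · apply sameCycle_of_step
    intro k
    by_cases hk : (rpi L a b).SameCycle j k
    · have h2 : (rpi L a b).SameCycle j (rpi L a b k) := by simpa using hk
      have h3 := rpi_flipRow_of_mem h h2
      rw [← sameCycle_apply_right, h3]
      simpa using SameCycle.refl _ k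
    · rw [← rpi_flipRow_of_not_mem h hk]
      simpa using SameCycle.refl _ k

theorem flipRow_flipRow {L : Arr α} (h : RowB L) (a b j : α) :
    flipRow (flipRow L a b j) a b j = L := by
  funext i k
  by_cases hk : (rpi L a b).SameCycle j k
  · rw [flipRow_of_mem ((sameCycle_flipRow h).2 hk), flipRow_of_mem hk, swap_apply_self]
  · rw [flipRow_of_not_mem (fun h' => hk ((sameCycle_flipRow h).1 h')), flipRow_of_not_mem hk]

theorem cyc_flipRow {L : Arr α} (h : RowB L) (a b j x : α) :
    cyc (rpi (flipRow L a b j) a b) x = cyc (rpi L a b) x := by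
  ext y
  rw [mem_cyc, mem_cyc, sameCycle_flipRow h]

/-- Switch the cycle of columns `d`, `d'` through row `i`. -/
noncomputable def flipCol (L : Arr α) (d d' i : α) : Arr α := tr (flipRow (tr L) d d' i)

theorem flipCol_latin {L : Arr α} (h : Latin L) (d d' i : α) : Latin (flipCol L d d' i) :=
  (flipRow_latin h.tr d d' i).tr

theorem flipCol_flipCol {L : Arr α} (h : Latin L) (d d' i : α) :
    flipCol (flipCol L d d' i) d d' i = L := by
  unfold flipCol
  rw [tr_tr, flipRow_flipRow h.2, tr_tr]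

theorem flipCol_of_ne {L : Arr α} {d d' i k : α} (ha : k ≠ d) (hb : k ≠ d') (x : α) :
    flipCol L d d' i x k = L x k := by
  unfold flipCol
  rw [tr_apply, flipRow_of_ne ha hb, tr_apply]

theorem flipCol_of_mem {L : Arr α} {d d' i x : α} (h : (rpi (tr L) d d').SameCycle i x) (k : α) :
    flipCol L d d' i x k = L x (swap d d' k) := by
  unfold flipCol
  rw [tr_apply, flipRow_of_mem h, tr_apply]

theorem flipCol_of_not_mem {L : Arr α} {d d' i x : α} (h : ¬ (rpi (tr L) d d').SameCycle i x)
    (k : α) : flipCol L d d' i x k = L x k := by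
  unfold flipCol
  rw [tr_apply, flipRow_of_not_mem h, tr_apply]

/-- Exchange two entries of row `a`. -/
def swapRow (L : Arr α) (a c c' : α) : Arr α :=
  fun i k => if i = a then L i (swap c c' k) else L i k

theorem swapRow_self (L : Arr α) (a c c' k : α) : swapRow L a c c' a k = L a (swap c c' k) := by
  simp [swapRow]

theorem swapRow_of_ne (L : Arr α) {a i : α} (h : i ≠ a) (c c' k : α) :
    swapRow L a c c' i k = L i k := by
  simp [swapRow, h]

theorem swapRow_of_ne_col (L : Arr α) (a i : α) {c c' k : α} (h : k ≠ c) (h' : k ≠ c') :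
    swapRow L a c c' i k = L i k := by
  simp [swapRow, swap_apply_of_ne_of_ne h h']

theorem swapRow_rowB {L : Arr α} (h : RowB L) (a c c' : α) : RowB (swapRow L a c c') := by
  intro i
  by_cases hi : i = a
  · subst hi
    have : swapRow L i c c' i = L i ∘ swap c c' := funext fun k => swapRow_self L i c c' k
    rw [this]
    exact (h i).comp (swap c c').bijective
  · have : swapRow L a c c' i = L i := funext fun k => swapRow_of_ne L hi c c' k
    rw [this]
    exact h i

theorem swapRow_swapRow (L : Arr α) (a c c' : α) : swapRow (swapRow L a c c') a c c' = L := by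
  funext i k
  by_cases hi : i = a
  · subst hi
    rw [swapRow_self, swapRow_self, swap_apply_self]
  · rw [swapRow_of_ne _ hi, swapRow_of_ne _ hi]

/-- A column obtained from a bijective column by exchanging two rows is bijective. -/
theorem col_bij_of_swap {L L' : Arr α} (h : RowB (tr L)) {k : α} (a b : α)
    (e : ∀ i, L' i k = L (swap a b i) k) : Bijective (tr L' k) := by
  have : tr L' k = tr L k ∘ swap a b := funext fun i => e i
  rw [this]
  exact (h k).comp (swap a b).bijective

theorem col_bij_of_eq {L L' : Arr α} (h : RowB (tr L)) {k : α}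
    (e : ∀ i, L' i k = L i k) : Bijective (tr L' k) := by
  have : tr L' k = tr L k := funext fun i => e i
  rw [this]
  exact h k

end Pool.Agent.Lib.MP_0a76a5_co
end

-- part Pool.Agent.Lib.MP_0a76a5_co.Switch
section

/-!
The three switchings: joining two row cycles, the cross switch and the intercalate switch.
-/

set_option autoImplicit false
set_option linter.unusedSectionVars false

open Equiv Equiv.Perm Finset Function

namespace Pool.Agent.Lib.MP_0a76a5_co

variable {α : Type*} [Fintype α] [DecidableEq α]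

/-- Undoing a join. -/
noncomputable def unjoin (M : Arr α) (a b g : α) (l : ℕ) (bit : Bool) : Arr α × α :=
  (if bit then flipRow (flipCol M g (((rpi M a b) ^ l) g) b) a b (((rpi M a b) ^ l) g)
    else flipCol M g (((rpi M a b) ^ l) g) b, ((rpi M a b) ^ l) g)

theorem join_aux {L : Arr α} (h : Latin L) {a b g d : α}
    (hgd : ¬ (rpi L a b).SameCycle g d) (hc : ¬ (rpi (tr L) g d).SameCycle b a) :
    ∃ M : Arr α, Latin M ∧ (∀ k, M a k = L a k) ∧ (∀ i k, k ≠ g → k ≠ d → M i k = L i k) ∧
      (∀ x y, (rpi L a b).SameCycle g x → (rpi L a b).SameCycle d y →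
        (rpi M a b).SameCycle x y) ∧
      ∃ l, 1 ≤ l ∧ l ≤ (cyc (rpi L a b) g).card ∧ ((rpi M a b) ^ l) g = d ∧
        flipCol M g d b = L := by
  have hM := flipCol_latin h g d b
  have ha : ∀ k, flipCol L g d b a k = L a k := fun k => flipCol_of_not_mem hc k
  have hb : ∀ k, flipCol L g d b b k = L b (swap g d k) :=
    fun k => flipCol_of_mem (SameCycle.refl _ _) k
  have hr := rpi_swap_right h.1 hM.1 ha hb
  refine ⟨flipCol L g d b, hM, ha, fun i k h1 h2 => flipCol_of_ne h1 h2 i, ?_, ?_⟩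
  · intro x y hx hy
    rw [hr]
    exact sameCycle_swap_mul hgd hx hy
  · obtain ⟨l, h1, h2, h3⟩ := exists_pow_swap_mul hgd
    exact ⟨l, h1, h2, by rw [hr, h3], flipCol_flipCol h g d b⟩

theorem join {L : Arr α} (h : Latin L) {a b g d : α} (hab : a ≠ b)
    (hgd : ¬ (rpi L a b).SameCycle g d) :
    ∃ L₁ M : Arr α, (L₁ = L ∨ L₁ = flipRow L a b d) ∧ Latin M ∧ (∀ k, M a k = L₁ a k) ∧
      (∀ i k, k ≠ g → k ≠ d → M i k = L₁ i k) ∧
      (∀ x y, (rpi L a b).SameCycle g x → (rpi L a b).SameCycle d y →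
        (rpi M a b).SameCycle x y) ∧
      ∃ l, 1 ≤ l ∧ l ≤ (cyc (rpi L a b) g).card ∧ ∃ bit, unjoin M a b g l bit = (L, d) := by
  by_cases hc : (rpi (tr L) g d).SameCycle b a
  · have h1 := flipRow_latin h a b d
    have hdg : ¬ (rpi L a b).SameCycle d g := fun h' => hgd h'.symm
    have hr : rpi (tr (flipRow L a b d)) g d = swap a b * rpi (tr L) g d := by
      apply rpi_swap_right h.2 h1.2
      · intro k
        simp only [tr_apply]
        exact flipRow_of_not_mem hdg k
      · intro k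
        simp only [tr_apply]
        exact flipRow_of_mem (SameCycle.refl _ _) k
    have hc1 : ¬ (rpi (tr (flipRow L a b d)) g d).SameCycle b a := by
      rw [hr]
      intro h'
      exact not_sameCycle_swap_mul hc.symm hab h'.symm
    have hgd1 : ¬ (rpi (flipRow L a b d) a b).SameCycle g d := by
      rw [sameCycle_flipRow h.1]; exact hgd
    obtain ⟨M, hM, e1, e2, e3, l, l1, l2, l3, l4⟩ := join_aux h1 hgd1 hc1
    refine ⟨_, M, Or.inr rfl, hM, e1, e2, ?_, l, l1, ?_, true, ?_⟩
    · intro x y hx hy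
      exact e3 x y ((sameCycle_flipRow h.1).2 hx) ((sameCycle_flipRow h.1).2 hy)
    · rwa [cyc_flipRow h.1] at l2
    · simp only [unjoin, if_true, l3, l4, flipRow_flipRow h.1]
  · obtain ⟨M, hM, e1, e2, e3, l, l1, l2, l3, l4⟩ := join_aux h hgd hc
    refine ⟨_, M, Or.inl rfl, hM, e1, e2, e3, l, l1, l2, false, ?_⟩
    simp [unjoin, l3, l4]

/-- Undoing a cross switch. -/
noncomputable def uncross (M : Arr α) (r r' r'' c c' : α) : Arr α :=
  swapRow (flipRow (swapRow (swapRow M r c c') r' c c') r' r'' c') r' c c'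

theorem cross {L : Arr α} (h : Latin L) {r r' r'' c c' : α} (h1 : r ≠ r') (h2 : r ≠ r'')
    (h3 : r' ≠ r'') (hc : c ≠ c') (e1 : L r' c = L r c') (e2 : L r'' c' = L r c)
    (hs : (rpi L r' r'').SameCycle c c') :
    ∃ M : Arr α, Latin M ∧ M r c = L r c' ∧ M r c' = L r c ∧ M r' c = L r c ∧
      M r'' c' = L r c' ∧ (∀ k, k ≠ c → k ≠ c' → M r k = L r k) ∧
      (∀ i k, i ≠ r → i ≠ r' → i ≠ r'' → M i k = L i k) ∧ uncross M r r' r'' c c' = L := by
  set M₁ := swapRow L r' c c' with hM₁
  have b₁ : RowB M₁ := swapRow_rowB h.1 _ _ _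
  have hr : rpi M₁ r' r'' = rpi L r' r'' * swap c c' :=
    rpi_swap_left h.1 b₁ (fun k => swapRow_self L r' c c' k)
      (fun k => swapRow_of_ne L h3.symm c c' k)
  have hns : ¬ (rpi M₁ r' r'').SameCycle c' c := by
    rw [hr]
    intro h'
    exact not_sameCycle_mul_swap hs hc h'.symm
  have hss : (rpi M₁ r' r'').SameCycle c' c' := SameCycle.refl _ _
  set M₂ := flipRow M₁ r' r'' c' with hM₂
  have b₂ : RowB M₂ := flipRow_rowB b₁ _ _ _
  set M₃ := swapRow M₂ r' c c' with hM₃
  have b₃ : RowB M₃ := swapRow_rowB b₂ _ _ _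
  set M₄ := swapRow M₃ r c c' with hM₄
  have b₄ : RowB M₄ := swapRow_rowB b₃ _ _ _
  have q0 : ∀ i k, i ≠ r' → i ≠ r'' → M₃ i k = L i k := by
    intro i k hi hi'
    rw [hM₃, swapRow_of_ne _ hi, hM₂, flipRow_of_ne hi hi', hM₁, swapRow_of_ne _ hi]
  have q1 : M₄ r c = L r c' := by
    rw [hM₄, swapRow_self, swap_apply_left, q0 _ _ h1 h2]
  have q2 : M₄ r c' = L r c := by
    rw [hM₄, swapRow_self, swap_apply_right, q0 _ _ h1 h2]
  have q3 : M₄ r' c = L r c := by
    rw [hM₄, swapRow_of_ne _ h1.symm, hM₃, swapRow_self, swap_apply_left, hM₂,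
      flipRow_of_mem hss, swap_apply_left, hM₁, swapRow_of_ne _ h3.symm, e2]
  have q4 : M₄ r'' c' = L r c' := by
    rw [hM₄, swapRow_of_ne _ h2.symm, hM₃, swapRow_of_ne _ h3.symm, hM₂,
      flipRow_of_mem hss, swap_apply_right, hM₁, swapRow_self, swap_apply_right, e1]
  have q5 : M₄ r'' c = L r'' c := by
    rw [hM₄, swapRow_of_ne _ h2.symm, hM₃, swapRow_of_ne _ h3.symm, hM₂,
      flipRow_of_not_mem hns, hM₁, swapRow_of_ne _ h3.symm]
  have q6 : M₄ r' c' = L r' c' := by
    rw [hM₄, swapRow_of_ne _ h1.symm, hM₃, swapRow_self, swap_apply_right, hM₂,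
      flipRow_of_not_mem hns, hM₁, swapRow_self, swap_apply_left]
  have q7 : ∀ i k, i ≠ r → i ≠ r' → i ≠ r'' → M₄ i k = L i k := by
    intro i k hi hi' hi''
    rw [hM₄, swapRow_of_ne _ hi, q0 _ _ hi' hi'']
  have q8 : ∀ i k, k ≠ c → k ≠ c' → M₄ i k = M₂ i k := by
    intro i k hk hk'
    rw [hM₄, swapRow_of_ne_col _ _ _ hk hk', hM₃, swapRow_of_ne_col _ _ _ hk hk']
  refine ⟨M₄, ⟨b₄, ?_⟩, q1, q2, q3, q4, ?_, q7, ?_⟩
  · intro k
    by_cases hk : k = c
    · subst hk
      apply col_bij_of_swap h.2 r r'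
      intro i
      by_cases hi : i = r
      · rw [hi, q1, swap_apply_left, e1]
      · by_cases hi' : i = r'
        · rw [hi', q3, swap_apply_right]
        · rw [swap_apply_of_ne_of_ne hi hi']
          by_cases hi'' : i = r''
          · rw [hi'', q5]
          · exact q7 _ _ hi hi' hi''
    · by_cases hk' : k = c'
      · subst hk'
        apply col_bij_of_swap h.2 r r''
        intro i
        by_cases hi : i = r
        · rw [hi, q2, swap_apply_left, e2]
        · by_cases hi'' : i = r''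
          · rw [hi'', q4, swap_apply_right]
          · rw [swap_apply_of_ne_of_ne hi hi'']
            by_cases hi' : i = r'
            · rw [hi', q6]
            · exact q7 _ _ hi hi' hi''
      · by_cases hm : (rpi M₁ r' r'').SameCycle c' k
        · apply col_bij_of_swap h.2 r' r''
          intro i
          rw [q8 _ _ hk hk', hM₂, flipRow_of_mem hm, hM₁, swapRow_of_ne_col _ _ _ hk hk']
        · apply col_bij_of_eq h.2
          intro i
          rw [q8 _ _ hk hk', hM₂, flipRow_of_not_mem hm, hM₁, swapRow_of_ne_col _ _ _ hk hk']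
  · intro k hk hk'
    rw [hM₄, swapRow_of_ne_col _ _ _ hk hk', q0 _ _ h1 h2]
  · unfold uncross
    rw [hM₄, swapRow_swapRow, hM₃, swapRow_swapRow, hM₂, flipRow_flipRow b₁, hM₁,
      swapRow_swapRow]

/-- Turning an intercalate. -/
def turn (M : Arr α) (r r'' c c' : α) : Arr α := swapRow (swapRow M r c c') r'' c c'

theorem turn_left (L : Arr α) {r r'' : α} (h2 : r ≠ r'') (c c' k : α) :
    turn L r r'' c c' r k = L r (swap c c' k) := by
  unfold turn
  rw [swapRow_of_ne _ h2, swapRow_self]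

theorem turn_right (L : Arr α) {r r'' : α} (h2 : r ≠ r'') (c c' k : α) :
    turn L r r'' c c' r'' k = L r'' (swap c c' k) := by
  unfold turn
  rw [swapRow_self, swapRow_of_ne _ h2.symm]

theorem turn_of_ne (L : Arr α) {r r'' i : α} (h1 : i ≠ r) (h2 : i ≠ r'') (c c' k : α) :
    turn L r r'' c c' i k = L i k := by
  unfold turn
  rw [swapRow_of_ne _ h2, swapRow_of_ne _ h1]

theorem turn_of_ne_col (L : Arr α) (r r'' i : α) {c c' k : α} (h1 : k ≠ c) (h2 : k ≠ c') :
    turn L r r'' c c' i k = L i k := by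
  unfold turn
  rw [swapRow_of_ne_col _ _ _ h1 h2, swapRow_of_ne_col _ _ _ h1 h2]

theorem turn_turn (L : Arr α) {r r'' : α} (h2 : r ≠ r'') (c c' : α) :
    turn (turn L r r'' c c') r r'' c c' = L := by
  funext i k
  by_cases hi : i = r
  · rw [hi, turn_left _ h2, turn_left _ h2, swap_apply_self]
  · by_cases hi' : i = r''
    · rw [hi', turn_right _ h2, turn_right _ h2, swap_apply_self]
    · rw [turn_of_ne _ hi hi', turn_of_ne _ hi hi']

theorem turn_latin {L : Arr α} (h : Latin L) {r r'' c c' : α} (h2 : r ≠ r'')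
    (e1 : L r'' c = L r c') (e2 : L r'' c' = L r c) : Latin (turn L r r'' c c') := by
  refine ⟨swapRow_rowB (swapRow_rowB h.1 _ _ _) _ _ _, ?_⟩
  intro k
  by_cases hk : k = c
  · subst hk
    apply col_bij_of_swap h.2 r r''
    intro i
    by_cases hi : i = r
    · rw [hi, turn_left _ h2, swap_apply_left, swap_apply_left, e1]
    · by_cases hi' : i = r''
      · rw [hi', turn_right _ h2, swap_apply_left, swap_apply_right, e2]
      · rw [turn_of_ne _ hi hi', swap_apply_of_ne_of_ne hi hi']
  · by_cases hk' : k = c'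
    · subst hk'
      apply col_bij_of_swap h.2 r r''
      intro i
      by_cases hi : i = r
      · rw [hi, turn_left _ h2, swap_apply_right, swap_apply_left, e2]
      · by_cases hi' : i = r''
        · rw [hi', turn_right _ h2, swap_apply_right, swap_apply_right, e1]
        · rw [turn_of_ne _ hi hi', swap_apply_of_ne_of_ne hi hi']
    · apply col_bij_of_eq h.2
      intro i
      rw [turn_of_ne_col _ _ _ _ hk hk']

/-- Undoing a turn followed by a row switch. -/
noncomputable def unturn (M : Arr α) (r r' r'' c c' : α) : Arr α :=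
  turn (flipRow M r' r'' c) r r'' c c'

theorem turn_flip {L : Arr α} (h : Latin L) {r r' r'' c c' : α} (h1 : r ≠ r') (h2 : r ≠ r'')
    (h3 : r' ≠ r'') (hc : c ≠ c') (e1 : L r'' c = L r c') (e2 : L r'' c' = L r c)
    (hs : (rpi L r' r'').SameCycle c c') :
    ∃ M : Arr α, Latin M ∧ M r c = L r c' ∧ M r c' = L r c ∧ M r' c = L r c ∧
      M r'' c' = L r c' ∧ (∀ k, k ≠ c → k ≠ c' → M r k = L r k) ∧
      (∀ i k, i ≠ r → i ≠ r' → i ≠ r'' → M i k = L i k) ∧ unturn M r r' r'' c c' = L := by
  have hT := turn_latin h h2 e1 e2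
  set M₁ := turn L r r'' c c' with hM₁
  have hr : rpi M₁ r' r'' = swap c c' * rpi L r' r'' :=
    rpi_swap_right h.1 hT.1 (fun k => turn_of_ne L h1.symm h3 c c' k)
      (fun k => turn_right L h2 c c' k)
  have hns : ¬ (rpi M₁ r' r'').SameCycle c c' := by
    rw [hr]
    exact not_sameCycle_swap_mul hs hc
  have hss : (rpi M₁ r' r'').SameCycle c c := SameCycle.refl _ _
  refine ⟨flipRow M₁ r' r'' c, flipRow_latin hT _ _ _, ?_, ?_, ?_, ?_, ?_, ?_, ?_⟩
  · rw [flipRow_of_ne h1 h2, hM₁, turn_left _ h2, swap_apply_left]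
  · rw [flipRow_of_ne h1 h2, hM₁, turn_left _ h2, swap_apply_right]
  · rw [flipRow_of_mem hss, swap_apply_left, hM₁, turn_right _ h2, swap_apply_left, e2]
  · rw [flipRow_of_not_mem hns, hM₁, turn_right _ h2, swap_apply_right, e1]
  · intro k hk hk'
    rw [flipRow_of_ne h1 h2, hM₁, turn_of_ne_col _ _ _ _ hk hk']
  · intro i k hi hi' hi''
    rw [flipRow_of_ne hi' hi'', hM₁, turn_of_ne _ hi hi'']
  · unfold unturn
    rw [flipRow_flipRow hT.1, hM₁, turn_turn _ h2]

end Pool.Agent.Lib.MP_0a76a5_co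
end

-- part Pool.Agent.Lib.MP_0a76a5_co.Count
section

/-!
Counting lemmas and the sets of configurations used in the switching argument.
-/

set_option autoImplicit false
set_option linter.unusedSectionVars false

open Equiv Equiv.Perm Finset Function

namespace Pool.Agent.Lib.MP_0a76a5_co

/-- The finite set of all points with a property. -/
noncomputable def fs {β : Type*} [Fintype β] (p : β → Prop) : Finset β := by
  classical exact univ.filter p

theorem mem_fs {β : Type*} [Fintype β] {p : β → Prop} {x : β} : x ∈ fs p ↔ p x := by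
  unfold fs
  simp

theorem card_le_of_rec {β δ ε : Type*} (A : Finset β) (B : Finset δ) (T : Finset ε)
    (rc : δ → ε → β) (h : ∀ a ∈ A, ∃ b ∈ B, ∃ t ∈ T, rc b t = a) :
    A.card ≤ B.card * T.card := by
  classical
  rw [← card_product]
  refine le_trans (card_le_card ?_) (card_image_le (s := B ×ˢ T) (f := fun p => rc p.1 p.2))
  intro a ha
  obtain ⟨b, hb, t, ht, e⟩ := h a ha
  exact mem_image.2 ⟨(b, t), mem_product.2 ⟨hb, ht⟩, e⟩

theorem double_count {β γ δ ε : Type*} [Fintype γ] (A : Finset β) (R : β → γ → Prop)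
    (B : Finset δ) (T : Finset ε) (rc : δ → ε → β × γ) (m : ℕ)
    (hm : ∀ a ∈ A, m ≤ (fs (R a)).card)
    (h : ∀ a ∈ A, ∀ d, R a d → ∃ b ∈ B, ∃ t ∈ T, rc b t = (a, d)) :
    A.card * m ≤ B.card * T.card := by
  classical
  set P : Finset (β × γ) := (A ×ˢ (univ : Finset γ)).filter (fun p => R p.1 p.2) with hP
  have h1 : P.card ≤ B.card * T.card := by
    apply card_le_of_rec P B T rc
    rintro ⟨a, d⟩ hp
    rw [hP, mem_filter, mem_product] at hp
    exact h a hp.1.1 d hp.2
  refine le_trans ?_ h1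
  have h2 : P.card = ∑ a ∈ A, (P.filter (fun p => p.1 = a)).card := by
    apply card_eq_sum_card_fiberwise
    intro p hp
    have hp' : p ∈ P := hp
    rw [hP, mem_filter, mem_product] at hp'
    exact hp'.1.1
  rw [h2, ← smul_eq_mul, ← sum_const]
  apply sum_le_sum
  intro a ha
  refine le_trans (hm a ha) ?_
  apply card_le_card_of_injOn (fun d => (a, d))
  · intro d hd
    have hd' : R a d := mem_fs.1 hd
    simp only [coe_filter, hP, mem_filter, mem_product, mem_univ, Set.mem_ofPred_eq]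
    exact ⟨⟨⟨ha, trivial⟩, hd'⟩, trivial⟩
  · intro d _ d' _ e
    exact (Prod.ext_iff.1 e).2

theorem card_fs_mem_le {β γ : Type*} [Fintype β] (f : β → γ) (hf : Injective f)
    (X : Finset γ) : (fs fun d => f d ∈ X).card ≤ X.card := by
  apply card_le_card_of_injOn f
  · intro d hd
    exact (mem_fs (p := fun d => f d ∈ X)).1 hd
  · exact hf.injOn

theorem card_le_three {β : Type*} (U A B C : Finset β)
    (h : ∀ x ∈ U, x ∈ A ∨ x ∈ B ∨ x ∈ C) : U.card ≤ A.card + B.card + C.card := by
  classical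
  have : U ⊆ A ∪ B ∪ C := by
    intro x hx
    rcases h x hx with h | h | h <;> simp [h]
  refine le_trans (card_le_card this) ?_
  refine le_trans (card_union_le _ _) ?_
  exact Nat.add_le_add_right (card_union_le _ _) _

variable {α : Type*} [Fintype α] [DecidableEq α]

/-- The data of one step of the cell by cell argument. -/
structure Ctx (α : Type*) where
  X : Finset α
  Y : Finset α
  Z : Finset α
  D : Finset (α × α)
  r : α
  c : α
  hD : ∀ p ∈ D, p.1 ∈ X ∧ p.2 ∈ Y
  hr : r ∈ X
  hc : c ∈ Y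
  hrc : (r, c) ∉ D

/-- Configurations: a square, a column and two rows. -/
abbrev Cf (α : Type*) := Arr α × α × α × α

namespace Ctx

variable (K : Ctx α)

/-- Latin squares with no symbol of `Z` in the cells of `D`. -/
def Ok (L : Arr α) : Prop := Latin L ∧ ∀ p ∈ K.D, L p.1 p.2 ∉ K.Z

theorem Ok.of_agree {K : Ctx α} {L M : Arr α} (h : K.Ok L) (hM : Latin M)
    (e : ∀ i ∈ K.X, ∀ k ∈ K.Y, (i, k) ≠ (K.r, K.c) → M i k = L i k ∨ M i k ∉ K.Z) :
    K.Ok M := by
  refine ⟨hM, fun p hp => ?_⟩
  have hne : (p.1, p.2) ≠ (K.r, K.c) := fun h' => K.hrc (h' ▸ hp)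
  rcases e p.1 (K.hD p hp).1 p.2 (K.hD p hp).2 hne with h1 | h1
  · rw [h1]; exact h.2 p hp
  · exact h1

/-- Squares whose cell `(r, c)` avoids `Z`. -/
noncomputable def S : Finset (Arr α) := fs fun L => K.Ok L ∧ L K.r K.c ∉ K.Z

/-- Squares whose cell `(r, c)` has a symbol of `Z`. -/
noncomputable def T : Finset (Arr α) := fs fun L => K.Ok L ∧ L K.r K.c ∈ K.Z

/-- Common conditions on a configuration. -/
def Base (q : Cf α) : Prop :=
  K.Ok q.1 ∧ q.1 K.r K.c ∉ K.Z ∧ q.1 K.r q.2.1 ∈ K.Z ∧ q.2.2.1 ∉ K.X ∧ q.2.2.2 ∉ K.X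

/-- First type. -/
def Ty1 (q : Cf α) : Prop :=
  q.1 q.2.2.1 K.c = q.1 K.r q.2.1 ∧ q.1 q.2.2.2 q.2.1 = q.1 K.r K.c

/-- Second type (an intercalate and a spare row). -/
def Ty2 (q : Cf α) : Prop :=
  q.1 q.2.2.2 K.c = q.1 K.r q.2.1 ∧ q.1 q.2.2.2 q.2.1 = q.1 K.r K.c

/-- The two columns lie on one cycle of the two rows. -/
def Same (q : Cf α) : Prop := (rpi q.1 q.2.2.1 q.2.2.2).SameCycle K.c q.2.1

/-- First type, one cycle. -/
noncomputable def S1s : Finset (Cf α) :=
  fs fun q => K.Base q ∧ q.2.2.1 ≠ q.2.2.2 ∧ K.Ty1 q ∧ K.Same q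

/-- First type, two cycles. -/
noncomputable def S1d : Finset (Cf α) :=
  fs fun q => K.Base q ∧ q.2.2.1 ≠ q.2.2.2 ∧ K.Ty1 q ∧ ¬ K.Same q

/-- Second type, one cycle. -/
noncomputable def S2s : Finset (Cf α) :=
  fs fun q => K.Base q ∧ q.2.2.1 ≠ q.2.2.2 ∧ K.Ty2 q ∧ K.Same q

/-- Second type, two cycles. -/
noncomputable def S2d : Finset (Cf α) :=
  fs fun q => K.Base q ∧ q.2.2.1 ≠ q.2.2.2 ∧ K.Ty2 q ∧ ¬ K.Same q

/-- Intercalates. -/
noncomputable def I : Finset (Cf α) :=
  fs fun q => K.Base q ∧ q.2.2.1 = q.2.2.2 ∧ K.Ty1 q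

theorem Base.r_ne_fst {K : Ctx α} {q : Cf α} (h : K.Base q) : K.r ≠ q.2.2.1 :=
  fun e => h.2.2.2.1 (e ▸ K.hr)

theorem Base.r_ne_snd {K : Ctx α} {q : Cf α} (h : K.Base q) : K.r ≠ q.2.2.2 :=
  fun e => h.2.2.2.2 (e ▸ K.hr)

theorem Base.c_ne {K : Ctx α} {q : Cf α} (h : K.Base q) : K.c ≠ q.2.1 :=
  fun e => h.2.1 (e ▸ h.2.2.1)

/-- Step (a). -/
theorem step_a : K.S.card * (K.Z.card - 2 * K.X.card) ≤
    K.S1s.card + K.S1d.card + K.I.card := by
  have h1 := double_count K.S
    (fun L c' => L K.r c' ∈ K.Z ∧ pos (tr L K.c) (L K.r c') ∉ K.X ∧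
      pos (tr L c') (L K.r K.c) ∉ K.X)
    (fs fun q => K.Base q ∧ K.Ty1 q) ({()} : Finset Unit) (fun q _ => (q.1, q.2.1))
    (K.Z.card - 2 * K.X.card) ?_ ?_
  · refine le_trans h1 ?_
    rw [card_singleton, mul_one]
    apply card_le_three
    intro q hq
    rw [mem_fs] at hq
    unfold S1s S1d I
    simp only [mem_fs]
    by_cases e : q.2.2.1 = q.2.2.2
    · exact Or.inr (Or.inr ⟨hq.1, e, hq.2⟩)
    · by_cases s : K.Same q
      · exact Or.inl ⟨hq.1, e, hq.2, s⟩
      · exact Or.inr (Or.inl ⟨hq.1, e, hq.2, s⟩)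
  · intro L hL
    have hL' : K.Ok L ∧ L K.r K.c ∉ K.Z :=
      (mem_fs (p := fun L => K.Ok L ∧ L K.r K.c ∉ K.Z)).1 hL
    have hLat := hL'.1.1
    have b0 : K.Z.card ≤ (fs fun c' => L K.r c' ∈ K.Z).card := by
      apply card_le_card_of_injOn (pos (L K.r))
      · intro z hz
        simp only [mem_coe, mem_fs]
        rw [apply_pos (hLat.1 _)]
        exact hz
      · exact (pos_injective _).injOn
    have b1 : (fs fun c' => pos (tr L K.c) (L K.r c') ∈ K.X).card ≤ K.X.card :=
      card_fs_mem_le (fun c' => pos (tr L K.c) (L K.r c'))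
        ((pos_injective _).comp (hLat.1 _).1) K.X
    have b2 : (fs fun c' => pos (tr L c') (L K.r K.c) ∈ K.X).card ≤ K.X.card := by
      apply card_fs_mem_le (fun c' => pos (tr L c') (L K.r K.c))
      intro x y e
      have e1 := apply_pos (hLat.2 x) (L K.r K.c)
      have e2 := apply_pos (hLat.2 y) (L K.r K.c)
      simp only [tr_apply] at e1 e2
      simp only at e
      rw [← e] at e2
      exact hLat.row_inj (e1.trans e2.symm)
    have b3 := card_le_three (fs fun c' => L K.r c' ∈ K.Z)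
      (fs fun c' => L K.r c' ∈ K.Z ∧ pos (tr L K.c) (L K.r c') ∉ K.X ∧
        pos (tr L c') (L K.r K.c) ∉ K.X)
      (fs fun c' => pos (tr L K.c) (L K.r c') ∈ K.X)
      (fs fun c' => pos (tr L c') (L K.r K.c) ∈ K.X) (by
        intro x hx
        simp only [mem_fs] at hx ⊢
        tauto)
    omega
  · intro L hL c' hc'
    have hL' : K.Ok L ∧ L K.r K.c ∉ K.Z :=
      (mem_fs (p := fun L => K.Ok L ∧ L K.r K.c ∉ K.Z)).1 hL
    have hLat := hL'.1.1
    refine ⟨(L, c', pos (tr L K.c) (L K.r c'), pos (tr L c') (L K.r K.c)), ?_, (), by simp, rfl⟩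
    rw [mem_fs]
    exact ⟨⟨hL'.1, hL'.2, hc'.1, hc'.2.1, hc'.2.2⟩,
      apply_pos (hLat.2 K.c) (L K.r c'), apply_pos (hLat.2 c') (L K.r K.c)⟩

/-- Membership of the result of a switching in `T`. -/
theorem mem_T_of {L M : Arr α} {c' r' r'' : α} (hb : K.Base (L, c', r', r''))
    (hM : Latin M) (e1 : M K.r K.c = L K.r c') (e2 : M K.r c' = L K.r K.c)
    (e3 : ∀ k, k ≠ K.c → k ≠ c' → M K.r k = L K.r k)
    (e4 : ∀ i k, i ≠ K.r → i ≠ r' → i ≠ r'' → M i k = L i k) : M ∈ K.T := by
  unfold T
  rw [mem_fs]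
  refine ⟨hb.1.of_agree hM ?_, by rw [e1]; exact hb.2.2.1⟩
  intro i hi k _ hne
  by_cases hir : i = K.r
  · subst hir
    have hk : k ≠ K.c := fun e => hne (by rw [e])
    by_cases hk' : k = c'
    · right
      rw [hk', e2]
      exact hb.2.1
    · exact Or.inl (e3 k hk hk')
  · left
    exact e4 i k hir (fun e => hb.2.2.2.1 (e ▸ hi)) (fun e => hb.2.2.2.2 (e ▸ hi))

/-- Step (b). -/
theorem step_b : K.S1s.card ≤ K.T.card * Fintype.card α := by
  rw [← card_univ]
  apply card_le_of_rec K.S1s K.T univ (fun M c' =>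
    (uncross M K.r (pos (tr M K.c) (M K.r c')) (pos (tr M c') (M K.r K.c)) K.c c', c',
      pos (tr M K.c) (M K.r c'), pos (tr M c') (M K.r K.c)))
  rintro ⟨L, c', r', r''⟩ hq
  obtain ⟨hb, hne, ht, hs⟩ := mem_fs.1 hq
  obtain ⟨M, hM, e1, e2, e3, e4, e5, e6, e7⟩ :=
    cross hb.1.1 hb.r_ne_fst hb.r_ne_snd hne hb.c_ne ht.1 ht.2 hs
  refine ⟨M, K.mem_T_of hb hM e1 e2 e5 e6, c', mem_univ _, ?_⟩
  have p1 : pos (tr M K.c) (M K.r c') = r' := pos_eq (hM.2 _) (e3.trans e2.symm)
  have p2 : pos (tr M c') (M K.r K.c) = r'' := pos_eq (hM.2 _) (e4.trans e1.symm)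
  simp only [p1, p2]
  rw [e7]

/-- Step (d). -/
theorem step_d : K.S2s.card ≤ K.T.card * Fintype.card α := by
  rw [← card_univ]
  apply card_le_of_rec K.S2s K.T univ (fun M c' =>
    (unturn M K.r (pos (tr M K.c) (M K.r c')) (pos (tr M c') (M K.r K.c)) K.c c', c',
      pos (tr M K.c) (M K.r c'), pos (tr M c') (M K.r K.c)))
  rintro ⟨L, c', r', r''⟩ hq
  obtain ⟨hb, hne, ht, hs⟩ := mem_fs.1 hq
  obtain ⟨M, hM, e1, e2, e3, e4, e5, e6, e7⟩ :=
    turn_flip hb.1.1 hb.r_ne_fst hb.r_ne_snd hne hb.c_ne ht.1 ht.2 hs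
  refine ⟨M, K.mem_T_of hb hM e1 e2 e5 e6, c', mem_univ _, ?_⟩
  have p1 : pos (tr M K.c) (M K.r c') = r' := pos_eq (hM.2 _) (e3.trans e2.symm)
  have p2 : pos (tr M c') (M K.r K.c) = r'' := pos_eq (hM.2 _) (e4.trans e1.symm)
  simp only [p1, p2]
  rw [e7]

/-- Step (e). -/
theorem step_e : K.I.card ≤ K.T.card * Fintype.card α := by
  rw [← card_univ]
  apply card_le_of_rec K.I K.T univ (fun M c' =>
    (turn M K.r (pos (tr M K.c) (M K.r c')) K.c c', c',
      pos (tr M K.c) (M K.r c'), pos (tr M K.c) (M K.r c')))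
  rintro ⟨L, c', r', r''⟩ hq
  obtain ⟨hb, he, ht⟩ := mem_fs.1 hq
  simp only at he
  subst he
  have hr : K.r ≠ r' := hb.r_ne_fst
  have t1 : L r' K.c = L K.r c' := ht.1
  have t2 : L r' c' = L K.r K.c := ht.2
  have hM : Latin (turn L K.r r' K.c c') := turn_latin hb.1.1 hr t1 t2
  refine ⟨turn L K.r r' K.c c', K.mem_T_of hb hM ?_ ?_ ?_ ?_, c', mem_univ _, ?_⟩
  · rw [turn_left _ hr, swap_apply_left]
  · rw [turn_left _ hr, swap_apply_right]
  · intro k h1 h2
    rw [turn_of_ne_col _ _ _ _ h1 h2]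
  · intro i k h1 h2 _
    rw [turn_of_ne _ h1 h2]
  · have p1 : pos (tr (turn L K.r r' K.c c') K.c) (turn L K.r r' K.c c' K.r c') = r' := by
      apply pos_eq (hM.2 _)
      rw [tr_apply, turn_right _ hr, turn_left _ hr, swap_apply_left, swap_apply_right, t2]
    simp only [p1]
    rw [turn_turn _ hr]

/-- Switching a cycle of two spare rows keeps the common conditions. -/
theorem Base.flip {K : Ctx α} {L : Arr α} {c' r' r'' : α} (hb : K.Base (L, c', r', r''))
    (j : α) : K.Base (flipRow L r' r'' j, c', r', r'') := by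
  have h1 : K.r ≠ r' := hb.r_ne_fst
  have h2 : K.r ≠ r'' := hb.r_ne_snd
  refine ⟨hb.1.of_agree (flipRow_latin hb.1.1 _ _ _) ?_, ?_, ?_, hb.2.2.2.1, hb.2.2.2.2⟩
  · intro i hi k _ _
    left
    have x1 : r' ∉ K.X := hb.2.2.2.1
    have x2 : r'' ∉ K.X := hb.2.2.2.2
    exact flipRow_of_ne (fun e : i = r' => x1 (e ▸ hi)) (fun e : i = r'' => x2 (e ▸ hi)) k
  · show flipRow L r' r'' j K.r K.c ∉ K.Z
    rw [flipRow_of_ne h1 h2]
    exact hb.2.1
  · show flipRow L r' r'' j K.r c' ∈ K.Z
    rw [flipRow_of_ne h1 h2]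
    exact hb.2.2.1

/-- Step (c). -/
theorem step_c : K.S1d.card ≤ K.S2d.card := by
  have := card_le_of_rec K.S1d K.S2d ({()} : Finset Unit)
    (fun q _ => (flipRow q.1 q.2.2.1 q.2.2.2 K.c, q.2)) ?_
  · simpa using this
  rintro ⟨L, c', r', r''⟩ hq
  obtain ⟨hb, hne, ht, hs⟩ := mem_fs.1 hq
  have h1 : K.r ≠ r' := hb.r_ne_fst
  have h2 : K.r ≠ r'' := hb.r_ne_snd
  have hs' : ¬ (rpi L r' r'').SameCycle K.c c' := hs
  refine ⟨(flipRow L r' r'' K.c, c', r', r''), mem_fs.2 ⟨hb.flip _, hne, ⟨?_, ?_⟩, ?_⟩, (),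
    by simp, ?_⟩
  · show flipRow L r' r'' K.c r'' K.c = flipRow L r' r'' K.c K.r c'
    rw [flipRow_of_mem (SameCycle.refl _ _), swap_apply_right, flipRow_of_ne h1 h2]
    exact ht.1
  · show flipRow L r' r'' K.c r'' c' = flipRow L r' r'' K.c K.r K.c
    rw [flipRow_of_not_mem hs', flipRow_of_ne h1 h2]
    exact ht.2
  · show ¬ (rpi (flipRow L r' r'' K.c) r' r'').SameCycle K.c c'
    rw [sameCycle_flipRow hb.1.1.1]
    exact hs'
  · simp only
    rw [flipRow_flipRow hb.1.1.1]

/-- Step (f). -/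
theorem step_f : K.I.card * (Fintype.card α - K.X.card - 1) ≤ K.S2s.card + K.S2d.card := by
  have h1 := double_count K.I (fun q r' => r' ∉ K.X ∧ r' ≠ q.2.2.2)
    (fs fun q => K.Base q ∧ q.2.2.1 ≠ q.2.2.2 ∧ K.Ty2 q) ({()} : Finset Unit)
    (fun q _ => ((q.1, q.2.1, q.2.2.2, q.2.2.2), q.2.2.1))
    (Fintype.card α - K.X.card - 1) ?_ ?_
  · refine le_trans h1 ?_
    rw [card_singleton, mul_one]
    have := card_le_three (fs fun q => K.Base q ∧ q.2.2.1 ≠ q.2.2.2 ∧ K.Ty2 q) K.S2s K.S2d ∅ ?_
    · simpa using this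
    intro q hq
    rw [mem_fs] at hq
    unfold S2s S2d
    simp only [mem_fs]
    by_cases s : K.Same q
    · exact Or.inl ⟨hq.1, hq.2.1, hq.2.2, s⟩
    · exact Or.inr (Or.inl ⟨hq.1, hq.2.1, hq.2.2, s⟩)
  · intro q _
    have b3 := card_le_three (univ : Finset α) (fs fun r' => r' ∉ K.X ∧ r' ≠ q.2.2.2)
      K.X {q.2.2.2} (by
        intro x _
        simp only [mem_fs, mem_singleton]
        tauto)
    rw [card_univ, card_singleton] at b3
    omega
  · rintro ⟨L, c', r₁, r''⟩ hq r' hr'
    obtain ⟨hb, he, ht⟩ := mem_fs.1 hq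
    simp only at he
    subst he
    refine ⟨(L, c', r', r₁), mem_fs.2 ⟨⟨hb.1, hb.2.1, hb.2.2.1, hr'.1, hb.2.2.2.2⟩, hr'.2, ht⟩,
      (), by simp, rfl⟩

end Ctx

end Pool.Agent.Lib.MP_0a76a5_co
end
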